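import Pool.Agent.U837.CC.Tu

set_option autoImplicit false
set_option maxHeartbeats 4000000

/-!
One concatenation: the case `s = 1` of `vec_cat`.
-/

namespace Pool.Agent.U837.CC
open Finset Polynomial

open Classical in
theorem vec_one (D W U : ℕ) : ∃ V B₁ U' k₀ : ℕ, ∀ k : ℕ, k₀ ≤ k → ∀ Q : ℤ → Prop,
    (∀ p : ℕ → ℝ, CCl D V (kk B₁ k) p → ∀ c : ℤ, |c| ≤ (2 : ℤ) ^ (kk B₁ k) →
      ∑ v ∈ range (2 ^ (kk B₁ k)), (if Q (c + v) then 0 else p v) ≤ 1 / (k : ℝ) ^ U') →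
    ∀ x : ℕ, ∀ S ⊆ Icc 1 x, (∀ n ∈ S, ∃ (b : ℕ) (F : List ℤ[X]), Cond D W k n b F ∧ ¬ Q (cat b F n : ℕ)) →
      (S.card : ℝ) ≤ x / (k : ℝ) ^ U := by
  obtain ⟨V, B₁, U', k₀, h⟩ := vec_cat 1 D W U
  refine ⟨V, B₁, U', k₀, fun k hk Q hmain x S hSx hS => ?_⟩
  have h1 := h k hk (fun y => Q (y 0)) (by
    intro p hp c hc
    refine le_trans (le_of_eq ?_) (hmain (p 0) (hp 0) (c 0) (hc 0))
    refine sum_nbij' (fun v => v 0) (fun v => fun _ => v) ?_ ?_ ?_ ?_ ?_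
    · intro v hv
      exact Fintype.mem_piFinset.1 hv 0
    · intro v hv
      exact Fintype.mem_piFinset.2 fun _ => hv
    · intro v _
      ext i
      rw [Subsingleton.elim i 0]
    · intro v _
      rfl
    · intro v _
      simp [Fin.prod_univ_one]) (fun _ => x) (S.image fun n => fun _ => n) (by
    intro y hy
    rw [mem_image] at hy
    obtain ⟨n, hn, rfl⟩ := hy
    exact Fintype.mem_piFinset.2 fun _ => hSx hn) (by
    intro y hy
    rw [mem_image] at hy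
    obtain ⟨n, hn, rfl⟩ := hy
    obtain ⟨b, F, ⟨c1, c2, c3, c4, c5⟩, h2⟩ := hS n hn
    exact ⟨fun _ => b, fun _ => F, fun _ => ⟨c1, c2, c3, c4, c5⟩, h2⟩)
  rw [card_image_of_injective _ (fun a b h => congrFun h 0), Fin.prod_univ_one] at h1
  exact h1

end Pool.Agent.U837.CC
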