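import Pool.Agent.U837.CC.Ky

set_option autoImplicit false
set_option maxHeartbeats 4000000

/-!
The finitely many combinations which contain all the concatenations at a given scale, for the arguments in `[x / 2, x]`, with
bounds for the values up to constant factors.
-/

namespace Pool.Agent.U837.CC
open Finset Polynomial
open Pool.Agent.U837.RP (pol pol_coeff)

/-- the values of a small polynomial at comparable arguments -/
lemma val_max (D : ℕ) (R : ℝ) (hR : 1 ≤ R) (n m : ℕ) (hn : 2 * (D * R) ≤ n) (hn1 : 1 ≤ n) (hm : m ≤ 3 * n) (f : ℤ[X])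
    (h1 : 1 ≤ f.natDegree) (h2 : f.natDegree ≤ D)
    (h3 : ∀ i, |((f.coeff i : ℤ) : ℝ)| ≤ R) (h4 : 0 ≤ f.eval (n : ℤ)) :
    |((f.eval (m : ℤ) : ℤ) : ℝ)| ≤ 3 ^ (D + 1) * (((f.eval (n : ℤ)).toNat : ℕ) : ℝ) := by
  have hn0 : (1 : ℝ) ≤ n := by exact_mod_cast hn1
  have hmr : (m : ℝ) ≤ 3 * n := by exact_mod_cast hm
  have hm0 : (0 : ℝ) ≤ m := Nat.cast_nonneg m
  have he : (((f.eval (n : ℤ)).toNat : ℕ) : ℝ) = ((f.eval (n : ℤ) : ℤ) : ℝ) := by
    have : (((f.eval (n : ℤ)).toNat : ℕ) : ℤ) = f.eval (n : ℤ) := Int.toNat_of_nonneg h4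
    exact_mod_cast congrArg (fun z : ℤ => (z : ℝ)) this
  have hexp : ∀ n : ℕ, ((f.eval (n : ℤ) : ℤ) : ℝ) = ∑ i ∈ range (f.natDegree + 1), ((f.coeff i : ℤ) : ℝ) * (n : ℝ) ^ i := by
    intro n
    rw [eval_eq_sum_range]
    push_cast
    rfl
  obtain ⟨d, hd⟩ : ∃ d, d = f.natDegree := ⟨_, rfl⟩
  rw [← hd] at h1 h2 hexp
  have hlead : (1 : ℝ) ≤ |((f.coeff d : ℤ) : ℝ)| := by
    have h5 : f.coeff d ≠ 0 := by
      rw [hd, coeff_natDegree, Ne, leadingCoeff_eq_zero]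
      intro h0
      rw [h0, natDegree_zero] at hd
      omega
    have := Int.one_le_abs h5
    exact_mod_cast this
  have hDr : (d : ℝ) ≤ D := by exact_mod_cast h2
  have hd0 : (0 : ℝ) ≤ d := Nat.cast_nonneg d
  have h6 : (d : ℝ) * (R * (n : ℝ) ^ (d - 1)) * 2 ≤ (n : ℝ) ^ d := by
    have e : (n : ℝ) ^ d = (n : ℝ) ^ (d - 1) * n := by
      rw [← pow_succ]
      congr 1
      omega
    rw [e]
    have h7 : (d : ℝ) * R ≤ D * R := mul_le_mul_of_nonneg_right hDr (by linarith)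
    have h8 : 2 * ((d : ℝ) * R) ≤ n := by linarith
    have h9 : (0 : ℝ) ≤ (n : ℝ) ^ (d - 1) := by positivity
    calc (d : ℝ) * (R * (n : ℝ) ^ (d - 1)) * 2 = (n : ℝ) ^ (d - 1) * (2 * ((d : ℝ) * R)) := by ring
      _ ≤ (n : ℝ) ^ (d - 1) * n := mul_le_mul_of_nonneg_left h8 h9
  have h7 : (n : ℝ) ^ d ≤ |((f.coeff d : ℤ) : ℝ)| * (n : ℝ) ^ d := le_mul_of_one_le_left (by positivity) hlead
  have h8 : (0 : ℝ) ≤ ((f.eval (n : ℤ) : ℤ) : ℝ) := by exact_mod_cast h4
  have hsum : ∀ y : ℝ, 0 ≤ y → |∑ i ∈ range d, ((f.coeff i : ℤ) : ℝ) * y ^ i| ≤ ∑ i ∈ range d, R * y ^ i := by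
    intro y hy
    refine (abs_sum_le_sum_abs _ _).trans (sum_le_sum fun i _ => ?_)
    rw [abs_mul, abs_of_nonneg (by positivity : (0 : ℝ) ≤ y ^ i)]
    exact mul_le_mul_of_nonneg_right (h3 i) (by positivity)
  have hlow : ∑ i ∈ range d, R * (n : ℝ) ^ i ≤ d * (R * (n : ℝ) ^ (d - 1)) := by
    calc ∑ i ∈ range d, R * (n : ℝ) ^ i ≤ ∑ _i ∈ range d, R * (n : ℝ) ^ (d - 1) := by
          refine sum_le_sum fun i hi => ?_
          rw [mem_range] at hi
          exact mul_le_mul_of_nonneg_left (pow_le_pow_right₀ hn0 (by omega)) (by linarith)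
      _ = d * (R * (n : ℝ) ^ (d - 1)) := by rw [sum_const, card_range, nsmul_eq_mul]
  have h9 : |((f.coeff d : ℤ) : ℝ)| * (n : ℝ) ^ d ≤ 2 * ((f.eval (n : ℤ) : ℤ) : ℝ) := by
    have hexpn := hexp n
    rw [sum_range_succ] at hexpn
    have e : ((f.coeff d : ℤ) : ℝ) * (n : ℝ) ^ d = ((f.eval (n : ℤ) : ℤ) : ℝ) - ∑ i ∈ range d, ((f.coeff i : ℤ) : ℝ) * (n : ℝ) ^ i := by
      rw [hexpn]
      ring
    have h10 : |((f.coeff d : ℤ) : ℝ) * (n : ℝ) ^ d| ≤ |((f.eval (n : ℤ) : ℤ) : ℝ)| + |∑ i ∈ range d, ((f.coeff i : ℤ) : ℝ) * (n : ℝ) ^ i| := by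
      rw [e]
      exact abs_sub _ _
    rw [abs_mul, abs_of_nonneg (by positivity : (0 : ℝ) ≤ (n : ℝ) ^ d), abs_of_nonneg h8] at h10
    have h11 := (hsum n (by linarith)).trans hlow
    linarith
  rw [he, hexp m, sum_range_succ]
  have hpow : ∀ i ≤ d, (m : ℝ) ^ i ≤ 3 ^ D * (n : ℝ) ^ i := by
    intro i hi
    calc (m : ℝ) ^ i ≤ (3 * n) ^ i := pow_le_pow_left₀ hm0 hmr i
      _ = 3 ^ i * (n : ℝ) ^ i := mul_pow _ _ _
      _ ≤ 3 ^ D * (n : ℝ) ^ i := mul_le_mul_of_nonneg_right (pow_le_pow_right₀ (by norm_num) (by omega)) (by positivity)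
  have h12 : |∑ i ∈ range d, ((f.coeff i : ℤ) : ℝ) * (m : ℝ) ^ i| ≤ 3 ^ D * (d * (R * (n : ℝ) ^ (d - 1))) := by
    refine (hsum m hm0).trans ?_
    refine le_trans ?_ (mul_le_mul_of_nonneg_left hlow (by positivity))
    rw [mul_sum]
    refine sum_le_sum fun i hi => ?_
    rw [mem_range] at hi
    calc R * (m : ℝ) ^ i ≤ R * (3 ^ D * (n : ℝ) ^ i) := mul_le_mul_of_nonneg_left (hpow i (by omega)) (by linarith)
      _ = _ := by ring
  have h13 : |((f.coeff d : ℤ) : ℝ) * (m : ℝ) ^ d| ≤ 3 ^ D * (|((f.coeff d : ℤ) : ℝ)| * (n : ℝ) ^ d) := by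
    rw [abs_mul, abs_of_nonneg (by positivity : (0 : ℝ) ≤ (m : ℝ) ^ d)]
    calc |((f.coeff d : ℤ) : ℝ)| * (m : ℝ) ^ d ≤ |((f.coeff d : ℤ) : ℝ)| * (3 ^ D * (n : ℝ) ^ d) :=
          mul_le_mul_of_nonneg_left (hpow d le_rfl) (abs_nonneg _)
      _ = _ := by ring
  have h14 : (0 : ℝ) < 3 ^ D := by positivity
  calc |∑ i ∈ range d, ((f.coeff i : ℤ) : ℝ) * (m : ℝ) ^ i + ((f.coeff d : ℤ) : ℝ) * (m : ℝ) ^ d|
      ≤ 3 ^ D * (d * (R * (n : ℝ) ^ (d - 1))) + 3 ^ D * (|((f.coeff d : ℤ) : ℝ)| * (n : ℝ) ^ d) :=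
        (abs_add_le _ _).trans (add_le_add h12 h13)
    _ = 3 ^ D * (d * (R * (n : ℝ) ^ (d - 1)) + |((f.coeff d : ℤ) : ℝ)| * (n : ℝ) ^ d) := by ring
    _ ≤ 3 ^ D * (3 * ((f.eval (n : ℤ) : ℤ) : ℝ)) := by
        apply mul_le_mul_of_nonneg_left _ h14.le
        linarith
    _ = 3 ^ (D + 1) * ((f.eval (n : ℤ) : ℤ) : ℝ) := by rw [pow_succ]; ring

/-- the values of the combination of a concatenation at comparable arguments -/
lemma comb_max (D : ℕ) (R : ℝ) (hR : 1 ≤ R) (n b : ℕ) (hn : 2 * (D * R) ≤ n) (hn1 : 1 ≤ n) (F : List ℤ[X])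
    (hF : Adm D R n F) (hlen : F.length ≤ D) (m : ℕ) (hm : m ≤ 3 * n) :
    |(((comb F.length (Mp D b (pos b F n)) (fun l => F.getD l 0)).eval (m : ℤ) : ℤ) : ℝ)| ≤ 3 ^ (D + 1) * (cat b F n : ℕ) := by
  obtain ⟨hne, hnd, hf⟩ := hF
  have hmem : ∀ l < F.length, F.getD l 0 ∈ F := by
    intro l hl
    rw [List.getD_eq_getElem _ _ hl]
    exact List.getElem_mem hl
  rw [(cat_aux b n F).2]
  unfold comb
  rw [eval_finsetSum]
  push_cast
  refine (abs_sum_le_sum_abs _ _).trans ?_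
  rw [mul_sum]
  refine sum_le_sum fun l hl => ?_
  rw [mem_range] at hl
  obtain ⟨g1, g2, g3, g4⟩ := hf _ (hmem l hl)
  have h1 := val_max D R hR n m hn hn1 hm _ g1 g2 g3 g4
  rw [eval_mul, eval_C]
  push_cast
  have e : ((Mp D b (pos b F n) l : ℕ) : ℝ) = (b : ℝ) ^ pos b F n l := by
    unfold Mp
    rw [if_pos (by omega)]
    push_cast
    rfl
  rw [e, abs_mul, abs_of_nonneg (by positivity : (0 : ℝ) ≤ (b : ℝ) ^ pos b F n l)]
  calc (b : ℝ) ^ pos b F n l * |(((F.getD l 0).eval (m : ℤ) : ℤ) : ℝ)|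
      ≤ (b : ℝ) ^ pos b F n l * (3 ^ (D + 1) * ((((F.getD l 0).eval (n : ℤ)).toNat : ℕ) : ℝ)) :=
        mul_le_mul_of_nonneg_left h1 (by positivity)
    _ = _ := by ring

/-- the leading position of a concatenation -/
lemma top_le (D : ℕ) (R : ℝ) (hR : 1 ≤ R) (n x b : ℕ) (hn : 2 * (D * R) ≤ n) (hn1 : 1 ≤ n) (hx : x ≤ 2 * n) (F : List ℤ[X])
    (hF : Adm D R n F) (hlen : F.length ≤ D) :
    (Mp D b (pos b F n) (F.length - 1) : ℝ) * (x : ℝ) ^ (F.getD (F.length - 1) 0).natDegree ≤ 2 ^ (D + 1) * (cat b F n : ℕ) := by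
  obtain ⟨hne, hnd, hf⟩ := hF
  have hxr : (x : ℝ) ≤ 2 * n := by exact_mod_cast hx
  have hl : 0 < F.length := by
    rcases F with _ | ⟨f, F⟩
    · exact absurd rfl hne
    · simp
  obtain ⟨l, hld⟩ : ∃ l, l = F.length - 1 := ⟨_, rfl⟩
  rw [← hld]
  have hll : l < F.length := by omega
  have hmem : F.getD l 0 ∈ F := by
    rw [List.getD_eq_getElem _ _ hll]
    exact List.getElem_mem hll
  obtain ⟨g1, g2, g3, g4⟩ := hf _ hmem
  obtain ⟨g5, g6⟩ := val_bounds D R hR n hn _ g1 g2 g3 g4 hn1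
  have e : ((Mp D b (pos b F n) l : ℕ) : ℝ) = (b : ℝ) ^ pos b F n l := by
    unfold Mp
    rw [if_pos (by omega)]
    push_cast
    rfl
  have h5 : b ^ pos b F n l * ((F.getD l 0).eval (n : ℤ)).toNat ≤ cat b F n := by
    rw [(cat_aux b n F).2]
    exact single_le_sum (f := fun l => b ^ pos b F n l * ((F.getD l 0).eval (n : ℤ)).toNat)
      (fun _ _ => Nat.zero_le _) (mem_range.2 hll)
  have h6 : (b : ℝ) ^ pos b F n l * ((((F.getD l 0).eval (n : ℤ)).toNat : ℕ) : ℝ) ≤ ((cat b F n : ℕ) : ℝ) := by exact_mod_cast h5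
  rw [e]
  calc (b : ℝ) ^ pos b F n l * (x : ℝ) ^ (F.getD l 0).natDegree
      ≤ (b : ℝ) ^ pos b F n l * (2 ^ D * (n : ℝ) ^ (F.getD l 0).natDegree) := by
        apply mul_le_mul_of_nonneg_left _ (by positivity)
        calc (x : ℝ) ^ (F.getD l 0).natDegree ≤ (2 * n) ^ (F.getD l 0).natDegree := pow_le_pow_left₀ (Nat.cast_nonneg _) hxr _
          _ = 2 ^ (F.getD l 0).natDegree * (n : ℝ) ^ (F.getD l 0).natDegree := mul_pow _ _ _
          _ ≤ 2 ^ D * (n : ℝ) ^ (F.getD l 0).natDegree :=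
              mul_le_mul_of_nonneg_right (pow_le_pow_right₀ (by norm_num) g2) (by positivity)
    _ ≤ (b : ℝ) ^ pos b F n l * (2 ^ D * (2 * ((((F.getD l 0).eval (n : ℤ)).toNat : ℕ) : ℝ))) := by
        apply mul_le_mul_of_nonneg_left _ (by positivity)
        exact mul_le_mul_of_nonneg_left g5 (by positivity)
    _ = 2 ^ (D + 1) * ((b : ℝ) ^ pos b F n l * ((((F.getD l 0).eval (n : ℤ)).toNat : ℕ) : ℝ)) := by rw [pow_succ]; ring
    _ ≤ 2 ^ (D + 1) * (cat b F n : ℕ) := mul_le_mul_of_nonneg_left h6 (by positivity)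

theorem keysC (D W : ℕ) : ∃ V G k₀ : ℕ, ∀ k : ℕ, k₀ ≤ k → ∀ x : ℕ, k ^ (W + 1 + 1) ≤ x → Real.log x ≤ k →
    ∃ K : Finset (Code D), (K.card : ℝ) ≤ (k : ℝ) ^ G ∧ ∀ n : ℕ, 1 ≤ n → n ≤ x → x ≤ 2 * n →
      ∀ (b : ℕ) (F : List ℤ[X]), 2 ≤ b → (b : ℝ) ≤ (k : ℝ) ^ W → Adm D ((k : ℝ) ^ W) n F →
      ∃ κ ∈ K, Blk D x ((k : ℝ) ^ V) κ.2.1 (kM D κ) (kF D κ) ∧ (cat b F n : ℤ) = kE D κ n ∧
        kY D x κ ≤ (k : ℝ) ^ V * (cat b F n : ℕ) ∧ kY D x κ ≤ 2 ^ (D + 1) * (cat b F n : ℕ) ∧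
        ∀ m ≤ 3 * n, |((kE D κ m : ℤ) : ℝ)| ≤ 3 ^ (D + 1) * (cat b F n : ℕ) := by
  classical
  obtain ⟨Q, hQ1⟩ : ∃ Q, Q = 1 := ⟨_, rfl⟩
  obtain ⟨V, hV⟩ : ∃ V, V = 2 * W + Q * D + 1 := ⟨_, rfl⟩
  obtain ⟨G, hG⟩ : ∃ G, G = (W + 1) + 1 + (W + 1) * ((D + 1) * D) + 3 * D := ⟨_, rfl⟩
  refine ⟨V, G, 2 * (D * V + D * D) + 2 * (D + 1) + 3, fun k hk x hkx hlog => ?_⟩
  have hkx : k ^ (W + 1 + Q) ≤ x := by rw [hQ1]; exact hkx
  obtain ⟨L, hLd⟩ : ∃ L : ℝ, L = k := ⟨_, rfl⟩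
  have hL : (2 * (D * V + D * D) + 2 * (D + 1) + 3 : ℝ) ≤ L := by rw [hLd]; exact_mod_cast hk
  rw [← hLd] at hlog ⊢
  have hD0 : (0 : ℝ) ≤ D := Nat.cast_nonneg D
  have hDV : (0 : ℝ) ≤ D * V + D * D := by positivity
  have hL3 : 3 ≤ L := by linarith
  have hL1 : 1 ≤ L := by linarith
  have hL0 : 0 < L := by linarith
  have hk1 : 1 ≤ k := by omega
  have hx1 : 1 ≤ x := (Nat.one_le_pow _ _ hk1).trans hkx
  have hx0 : (0 : ℝ) < x := by exact_mod_cast hx1
  have hxr : (1 : ℝ) ≤ x := by exact_mod_cast hx1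
  have hkx' : L ^ (W + 1 + Q) ≤ x := by rw [hLd]; exact_mod_cast hkx
  have hLW : 1 ≤ L ^ W := one_le_pow₀ hL1
  have hLU : 1 ≤ L ^ Q := one_le_pow₀ hL1
  have hLV : 1 ≤ L ^ V := one_le_pow₀ hL1
  obtain ⟨R, hR⟩ : ∃ R : ℕ, R = ⌊L ^ W⌋₊ := ⟨_, rfl⟩
  have hR1 : (R : ℝ) ≤ L ^ W := by rw [hR]; exact Nat.floor_le (by positivity)
  obtain ⟨Λ, hΛ⟩ : ∃ Λ : ℕ, Λ = ⌊L ^ 2⌋₊ := ⟨_, rfl⟩
  have hΛ1 : (Λ : ℝ) ≤ L ^ 2 := by rw [hΛ]; exact Nat.floor_le (by positivity)
  obtain ⟨K, hK⟩ : ∃ K : Finset (Code D), K = range (R + 1) ×ˢ range (D + 1) ×ˢ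
    Fintype.piFinset (fun _ => Fintype.piFinset (fun _ => Icc (-(R : ℤ)) R)) ×ˢ Fintype.piFinset (fun _ => range (Λ + 1)) := ⟨_, rfl⟩
  refine ⟨K, ?_, ?_⟩
  · rw [hK, card_product, card_product, card_product, card_range, card_range, Fintype.card_piFinset, Fintype.card_piFinset]
    simp only [Fintype.card_piFinset, prod_const, card_univ, Fintype.card_fin, Int.card_Icc, card_range]
    have e : ((R : ℤ) + 1 - -(R : ℤ)).toNat = 2 * R + 1 := by omega
    rw [e]
    push_cast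
    have a1 : (R : ℝ) + 1 ≤ L ^ (W + 1) := by
      rw [pow_succ]
      nlinarith
    have a2 : (D : ℝ) + 1 ≤ L := by linarith
    have a3 : 2 * (R : ℝ) + 1 ≤ L ^ (W + 1) := by
      rw [pow_succ]
      nlinarith
    have a4 : (Λ : ℝ) + 1 ≤ L ^ 3 := by
      have : L ^ 3 = L ^ 2 * L := by ring
      rw [this]
      have h9 : 1 ≤ L ^ 2 := one_le_pow₀ hL1
      nlinarith
    calc ((R : ℝ) + 1) * (((D : ℝ) + 1) * (((2 * (R : ℝ) + 1) ^ (D + 1)) ^ D * ((Λ : ℝ) + 1) ^ D))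
        ≤ L ^ (W + 1) * (L * (((L ^ (W + 1)) ^ (D + 1)) ^ D * (L ^ 3) ^ D)) := by
          apply mul_le_mul a1 _ (by positivity) (by positivity)
          apply mul_le_mul a2 _ (by positivity) (by positivity)
          apply mul_le_mul _ _ (by positivity) (by positivity)
          · exact pow_le_pow_left₀ (by positivity) (pow_le_pow_left₀ (by positivity) a3 _) _
          · exact pow_le_pow_left₀ (by positivity) a4 _
      _ = L ^ G := by
          rw [hG, ← pow_mul, ← pow_mul, ← pow_mul, ← pow_add, ← pow_succ', ← pow_add]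
          congr 1
          ring
  · intro n hn1 hnx hxn2 b F hb2 hbR hF
    have hxn2r : (x : ℝ) ≤ 2 * n := by exact_mod_cast hxn2
    have hn0r : (0 : ℝ) ≤ n := Nat.cast_nonneg n
    have hxn : (x : ℝ) ≤ L ^ Q * n := by
      rw [hQ1, pow_one]
      exact hxn2r.trans (mul_le_mul_of_nonneg_right (by linarith) hn0r)
    have hbig : 2 * ((D : ℝ) * L ^ W) ≤ n := by
      have h4 : L ^ Q * (L ^ (W + 1)) ≤ L ^ Q * n := by
        calc L ^ Q * (L ^ (W + 1)) = L ^ (W + 1 + Q) := by rw [← pow_add]; congr 1; omega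
          _ ≤ x := hkx'
          _ ≤ _ := hxn
      have h5 : L ^ (W + 1) ≤ n := le_of_mul_le_mul_left h4 (by positivity)
      refine le_trans ?_ h5
      rw [pow_succ]
      have h6 : 2 * (D : ℝ) ≤ L := by linarith
      calc 2 * ((D : ℝ) * L ^ W) = L ^ W * (2 * D) := by ring
        _ ≤ L ^ W * L := mul_le_mul_of_nonneg_left h6 (by positivity)
    have hTT : 2 * ((D : ℝ) + 1) * (L ^ W * L ^ W) * (L ^ Q) ^ D ≤ L ^ V := by
      have e : L ^ V = L * (L ^ W * L ^ W) * (L ^ Q) ^ D := by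
        rw [hV, ← pow_mul, ← pow_add, ← pow_succ', ← pow_add]
        congr 1
        ring
      rw [e]
      apply mul_le_mul_of_nonneg_right _ (by positivity)
      apply mul_le_mul_of_nonneg_right _ (by positivity)
      linarith
    obtain ⟨hBlk, hcat, hlow⟩ := cat_blk D (L ^ W) (L ^ V) (L ^ Q) hLW x n b hbig hn1 hnx hxn hLU hb2 hbR hTT F hF
    have hlen : F.length ≤ D := hBlk.r_le
    have hmaxv := comb_max D (L ^ W) hLW n b hbig hn1 F hF hlen
    have hYv := top_le D (L ^ W) hLW n x b hbig hn1 hxn2 F hF hlen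
    obtain ⟨_, _, hf⟩ := hF
    obtain ⟨c, hc⟩ : ∃ c : Fin D → Fin (D + 1) → ℤ, c = fun (l : Fin D) (i : Fin (D + 1)) => (F.getD (l : ℕ) 0).coeff (i : ℕ) := ⟨_, rfl⟩
    obtain ⟨e, he⟩ : ∃ e : Fin D → ℕ, e = fun (l : Fin D) => if (l : ℕ) < F.length then pos b F n (l : ℕ) else 0 := ⟨_, rfl⟩
    have hmem : ∀ l < F.length, F.getD l 0 ∈ F := by
      intro l hl
      rw [List.getD_eq_getElem _ _ hl]
      exact List.getElem_mem hl
    have hdef : ∀ l, F.length ≤ l → F.getD l 0 = 0 := by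
      intro l hl
      exact List.getD_eq_default _ _ hl
    have hfk : fk D c = fun l => F.getD l 0 := by
      funext l
      unfold fk
      by_cases hl : l < D
      · rw [dif_pos hl, hc]
        simp only
        apply pol_coeff
        by_cases h3 : l < F.length
        · exact (hf _ (hmem l h3)).2.1
        · rw [hdef l (by omega), natDegree_zero]
          omega
      · rw [dif_neg hl, hdef l (by omega)]
    have hMk : ∀ l < F.length, Mk D b e l = Mp D b (pos b F n) l := by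
      intro l hl
      unfold Mk Mp
      rw [dif_pos (by omega), if_pos (by omega), he]
      simp only
      rw [if_pos hl]
    have hcomb : comb F.length (Mk D b e) (fk D c) = comb F.length (Mp D b (pos b F n)) (fun l => F.getD l 0) := by
      unfold comb
      rw [hfk]
      refine sum_congr rfl fun l hl => ?_
      rw [mem_range] at hl
      rw [hMk l hl]
    have hBk : Blk D x (L ^ V) F.length (Mk D b e) (fk D c) := by
      rw [hfk]
      refine ⟨hBlk.rpos, ?_, ?_, ?_, ?_, hBlk.one_le, hBlk.le_D, hBlk.inj, hBlk.co⟩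
      · rw [hMk 0 hBlk.rpos]
        exact hBlk.M0
      · intro l hl
        rw [hMk l hl]
        exact hBlk.pos l hl
      · intro l hl
        rw [hMk (l + 1) hl, hMk l (by omega)]
        exact hBlk.up l hl
      · intro l hl
        rw [hMk (l + 1) hl, hMk l (by omega)]
        exact hBlk.low l hl
    refine ⟨(b, F.length, c, e), ?_, ?_, ?_, ?_, ?_, ?_⟩
    · rw [hK, mem_product, mem_product, mem_product]
      refine ⟨?_, ?_, ?_, ?_⟩
      · rw [mem_range]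
        have h3 : b ≤ R := by rw [hR]; exact Nat.le_floor hbR
        simp only
        omega
      · rw [mem_range]
        simp only
        omega
      · rw [Fintype.mem_piFinset]
        intro l
        rw [Fintype.mem_piFinset]
        intro i
        rw [hc]
        simp only
        by_cases hl : (l : ℕ) < F.length
        · have g1 := (hf _ (hmem l hl)).2.2.1 (i : ℕ)
          have g2 : (((F.getD (l : ℕ) 0).coeff (i : ℕ)).natAbs : ℝ) ≤ L ^ W := by
            rw [Nat.cast_natAbs]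
            push_cast
            exact g1
          have g3 : ((F.getD (l : ℕ) 0).coeff (i : ℕ)).natAbs ≤ R := by rw [hR]; exact Nat.le_floor g2
          rw [mem_Icc]
          omega
        · rw [hdef l (by omega), coeff_zero, mem_Icc]
          omega
      · rw [Fintype.mem_piFinset]
        intro l
        rw [mem_range, he]
        simp only
        by_cases hl : (l : ℕ) < F.length
        · rw [if_pos hl]
          have g1 := pos_le D x hx1 (L ^ V) hLV F.length _ _ hBlk (l : ℕ) hl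
          have g2 : Mp D b (pos b F n) (l : ℕ) = b ^ pos b F n (l : ℕ) := by
            unfold Mp
            rw [if_pos (by omega)]
          rw [g2] at g1
          have g3 : ((2 : ℝ)) ^ pos b F n (l : ℕ) ≤ (L ^ V * (x : ℝ) ^ D) ^ D := by
            have hone' : 1 ≤ L ^ V * (x : ℝ) ^ D := one_le_mul_of_one_le_of_one_le hLV (one_le_pow₀ hxr)
            calc ((2 : ℝ)) ^ pos b F n (l : ℕ) ≤ (b : ℝ) ^ pos b F n (l : ℕ) :=
                  pow_le_pow_left₀ (by norm_num) (by exact_mod_cast hb2) _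
              _ = ((b ^ pos b F n (l : ℕ) : ℕ) : ℝ) := by push_cast; rfl
              _ ≤ (L ^ V * (x : ℝ) ^ D) ^ ((l : ℕ) + 1) := g1
              _ ≤ (L ^ V * (x : ℝ) ^ D) ^ D := pow_le_pow_right₀ hone' (by have := l.2; omega)
          have g4 := Real.log_le_log (by positivity) g3
          rw [Real.log_pow, Real.log_pow, Real.log_mul (by positivity) (by positivity), Real.log_pow, Real.log_pow] at g4
          have g5 : Real.log L ≤ L := (Real.log_le_sub_one_of_pos hL0).trans (by linarith)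
          have g6 : (1 : ℝ) / 2 ≤ Real.log 2 := by
            have := Real.log_two_gt_d9
            linarith
          have g7 : (D : ℝ) * (V * Real.log L + D * Real.log x) ≤ (D * V + D * D) * L := by
            have h3 : (V : ℝ) * Real.log L ≤ V * L := mul_le_mul_of_nonneg_left g5 (Nat.cast_nonneg V)
            have h4 : (D : ℝ) * Real.log x ≤ D * L := mul_le_mul_of_nonneg_left hlog hD0
            calc (D : ℝ) * (V * Real.log L + D * Real.log x) ≤ D * (V * L + D * L) := mul_le_mul_of_nonneg_left (by linarith) hD0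
              _ = _ := by ring
          have g8 : (pos b F n (l : ℕ) : ℝ) * (1 / 2) ≤ (D * V + D * D) * L :=
            (mul_le_mul_of_nonneg_left g6 (Nat.cast_nonneg _)).trans (g4.trans g7)
          have g9 : (pos b F n (l : ℕ) : ℝ) ≤ L ^ 2 := by
            have h3 : 2 * ((D : ℝ) * V + D * D) * L ≤ L * L := mul_le_mul_of_nonneg_right (by linarith) hL0.le
            rw [pow_two]
            linarith
          have h3 : pos b F n (l : ℕ) ≤ Λ := by rw [hΛ]; exact Nat.le_floor g9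
          omega
        · rw [if_neg hl]
          omega
    · exact hBk
    · unfold kE kM kF
      simp only
      rw [hcomb]
      exact hcat
    · unfold kY kM kF
      simp only
      rw [hMk _ (by have := hBlk.rpos; omega), hfk]
      exact hlow
    · unfold kY kM kF
      simp only
      rw [hMk _ (by have := hBlk.rpos; omega), hfk]
      exact hYv
    · intro m hm
      unfold kE kM kF
      simp only
      rw [hcomb]
      exact hmaxv m hm

end Pool.Agent.U837.CC
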