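import Pool.Agent.U837.CC.Tu
import Pool.Agent.U847.LF

set_option autoImplicit false
set_option maxHeartbeats 4000000

/-!
The Liouville function at an arbitrary polynomial times any number of linear factors whose constant terms are multiples of
integers near concatenations.
-/

namespace Pool.Agent.U837.CC
open Finset Polynomial
open Pool.Agent.U847.LF (linSum)

/-- all the sums with the constant terms `h i * q i` are small -/
def LinSmall {s : ℕ} (A T U k N M : ℕ) (f : Fin M → ℤ[X]) (α : Fin M → ℕ) (a : Fin s → ℤ) : Prop :=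
  ∀ l, ∀ I : Finset (Fin s), I.Nonempty → ∀ m r u w : ℕ, 1 ≤ m → m ≤ k ^ T → u ≤ w → α l * w ≤ k ^ A * N →
    |((linSum (f l) (α l) a I m r u w : ℤ) : ℝ)| ≤ N / (k : ℝ) ^ U

lemma kk_div (B U k : ℕ) (hk : B + 2 ≤ k) : (2 : ℝ) ^ kk B k / ((kk B k : ℕ) : ℝ) ^ (U + 2 * B) ≤ 2 ^ k / (k : ℝ) ^ U := by
  have hk0 : (0 : ℝ) < k := by exact_mod_cast (by omega : 0 < k)
  have h1 : kk B k ^ 0 * 2 ^ kk B k ≤ k ^ (2 * 0 + 2 * B) * 2 ^ k := kk_num B 0 k hk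
  rw [pow_zero, one_mul, mul_zero, zero_add] at h1
  have h1' : (2 : ℝ) ^ kk B k ≤ (k : ℝ) ^ (2 * B) * 2 ^ k := by exact_mod_cast h1
  have h2 : (k : ℝ) ^ (U + 2 * B) ≤ ((kk B k : ℕ) : ℝ) ^ (U + 2 * B) :=
    pow_le_pow_left₀ hk0.le (by exact_mod_cast kk_le B k) _
  calc (2 : ℝ) ^ kk B k / ((kk B k : ℕ) : ℝ) ^ (U + 2 * B) ≤ ((k : ℝ) ^ (2 * B) * 2 ^ k) / (k : ℝ) ^ (U + 2 * B) :=
        div_le_div₀ (by positivity) h1' (by positivity) h2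
    _ = 2 ^ k / (k : ℝ) ^ U := by
        rw [pow_add]
        field_simp

open Classical in
/-- the Liouville function at a polynomial times linear factors -/
theorem cc_lin (s D W U J A T : ℕ) : ∃ k₀ : ℕ, ∀ k : ℕ, k₀ ≤ k →
    ∀ M : ℕ, M ≤ k ^ T → ∀ (f : Fin M → ℤ[X]) (α : Fin M → ℕ), (∀ l, 1 ≤ α l) →
    ∀ x : Fin s → ℕ, ∀ S ⊆ Fintype.piFinset (fun i => Icc 1 (x i)),
      (∀ n ∈ S, ∃ (b : Fin s → ℕ) (F : Fin s → List ℤ[X]) (q h : Fin s → ℕ), (∀ i, Cond D W k (n i) (b i) (F i)) ∧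
        (∀ i, |(q i : ℤ) - (cat (b i) (F i) (n i) : ℤ)| ≤ (k : ℤ) ^ W) ∧ (∀ i, 1 ≤ h i ∧ h i ≤ k ^ J) ∧
        ¬ LinSmall A T U k (2 ^ k) M f α (fun i => (h i : ℤ) * q i)) →
      (S.card : ℝ) ≤ (∏ i, (x i : ℝ)) / (k : ℝ) ^ U := by
  obtain ⟨V, B₁, U', k₁, hvec⟩ := vec_cat s D W U
  obtain ⟨k₂, hmain⟩ := Pool.Agent.U847.LF.t_lin s le_rfl (fun _ => 1) (fun _ => CCl D V)
    (fun _ => cc_tcls D V 1 one_ne_zero) 1 A T J W (U' + U + 2 * B₁)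
  refine ⟨k₁ + k₂ + B₁ + 3, fun k hk M hM f α hα x S hSx hS => ?_⟩
  have hkk := kk_le B₁ k
  have hk0 : (0 : ℝ) < k := by exact_mod_cast (by omega : 0 < k)
  have hk1 : (1 : ℝ) ≤ k := by exact_mod_cast (by omega : 1 ≤ k)
  have hkkr : (k : ℝ) ≤ ((kk B₁ k : ℕ) : ℝ) := by exact_mod_cast hkk
  refine hvec k (by omega) (fun y => ∀ q : Fin s → ℕ, (∀ i, |(q i : ℤ) - y i| ≤ ((kk B₁ k : ℕ) : ℤ) ^ W) →
      ∀ h : Fin s → ℕ, (∀ i, 1 ≤ h i ∧ h i ≤ (kk B₁ k) ^ J) → ∀ l, ∀ I : Finset (Fin s), I.Nonempty →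
        ∀ m r u w : ℕ, 1 ≤ m → m ≤ (kk B₁ k) ^ T → u ≤ w → α l * w ≤ (kk B₁ k) ^ A * 2 ^ (kk B₁ k) →
        |((linSum (f l) (α l) (fun i => (h i : ℤ) * q i) I m r u w : ℤ) : ℝ)| ≤
          ((2 : ℕ) : ℝ) ^ (kk B₁ k) / ((kk B₁ k : ℕ) : ℝ) ^ (U' + U + 2 * B₁)) ?_ x S hSx ?_
  · intro p hp c hc
    have h1 := hmain (kk B₁ k) (by omega) p hp c (fun i => by
      have := hc i
      push_cast
      linarith) M (hM.trans (Nat.pow_le_pow_left hkk T)) f α hα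
    simp only [one_mul] at h1
    refine h1.trans ?_
    apply one_div_le_one_div_of_le
    · positivity
    · calc (k : ℝ) ^ U' ≤ (k : ℝ) ^ (U' + U + 2 * B₁) := pow_le_pow_right₀ hk1 (by omega)
        _ ≤ _ := pow_le_pow_left₀ hk0.le hkkr _
  · intro n hn
    obtain ⟨b, F, q, h, h1, h2, h3, h4⟩ := hS n hn
    refine ⟨b, F, h1, fun hc => h4 ?_⟩
    intro l I hI m r u w hm1 hm2 huw hw
    have h5 := hc q (fun i => (h2 i).trans (by
      apply pow_le_pow_left₀ (by positivity)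
      exact_mod_cast hkk)) h (fun i => ⟨(h3 i).1, (h3 i).2.trans (Nat.pow_le_pow_left hkk J)⟩) l I hI m r u w hm1
      (hm2.trans (Nat.pow_le_pow_left hkk T)) huw (hw.trans (kk_num' B₁ A k))
    refine h5.trans ?_
    push_cast
    refine le_trans ?_ (kk_div B₁ U k (by omega))
    apply div_le_div_of_nonneg_left (by positivity) (pow_pos (hk0.trans_le hkkr) _)
    exact pow_le_pow_right₀ (hk1.trans hkkr) (by omega)

end Pool.Agent.U837.CC
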