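import Pool.Agent.U837.CC.Kc
import Pool.Agent.U837.CC.Vc

set_option autoImplicit false
set_option maxHeartbeats 4000000

/-!
From random concatenations to almost all arguments in `[x / 2, x]`, at the exact scale of the values (up to constant factors).
-/

namespace Pool.Agent.U837.CC
open Finset Polynomial

open Classical in
lemma fiber_one (R x : ℕ) (y : ℕ → ℤ) (hx : 1 ≤ x) (hy : ∀ n < x, 0 ≤ y n ∧ y n < R) (Q : ℤ → Prop) (c : ℤ) (Z : Finset ℕ)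
    (hZ : ∀ n ∈ Z, n < x ∧ ¬ Q (c + y n)) :
    (Z.card : ℝ) ≤ x * ∑ v ∈ range R, (if Q (c + v) then 0 else pm x y v) := by
  have hx0 : (0 : ℝ) < x := by exact_mod_cast hx
  have h1 := pm_sum x y R hy (fun v => if Q (c + v) then (0 : ℝ) else 1)
  have h2 : ∑ v ∈ range R, (if Q (c + v) then 0 else pm x y v) =
      ∑ v ∈ range R, (pm x y v) • (if Q (c + v) then (0 : ℝ) else 1) := by
    refine sum_congr rfl fun v _ => ?_
    by_cases h : Q (c + v)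
    · rw [if_pos h, if_pos h, smul_zero]
    · rw [if_neg h, if_neg h, smul_eq_mul, mul_one]
  rw [h2, h1, smul_eq_mul, ← mul_assoc, mul_one_div_cancel hx0.ne', one_mul]
  have h3 : (Z.card : ℝ) = ∑ n ∈ Z, (1 : ℝ) := by simp
  rw [h3]
  calc ∑ n ∈ Z, (1 : ℝ) = ∑ n ∈ Z, (if Q (c + ((y n).toNat : ℕ)) then (0 : ℝ) else 1) := by
        refine sum_congr rfl fun n hn => ?_
        obtain ⟨h4, h5⟩ := hZ n hn
        rw [Int.toNat_of_nonneg (hy n h4).1, if_neg h5]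
    _ ≤ ∑ n ∈ range x, (if Q (c + ((y n).toNat : ℕ)) then (0 : ℝ) else 1) := by
        apply sum_le_sum_of_subset_of_nonneg
        · intro n hn
          exact mem_range.2 (hZ n hn).1
        · intro n _ _
          split_ifs
          · exact le_rfl
          · exact zero_le_one

open Classical in
/-- **One concatenation, with constant losses.** -/
theorem one_cl (D W U : ℕ) : ∃ V c₁ U' k₀ : ℕ, ∀ k : ℕ, k₀ ≤ k → ∀ Q : ℤ → Prop,
    (∀ p : ℕ → ℝ, CCl D V (k + c₁) p → ∀ c : ℤ, |c| ≤ (2 : ℤ) ^ (k + c₁) →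
      ∑ v ∈ range (2 ^ (k + c₁)), (if Q (c + v) then 0 else p v) ≤ 1 / (k : ℝ) ^ U') →
    ∀ x : ℕ, ∀ S ⊆ Icc 1 x, (∀ n ∈ S, x ≤ 2 * n ∧ ∃ (b : ℕ) (F : List ℤ[X]), 2 ≤ b ∧ (b : ℝ) ≤ (k : ℝ) ^ W ∧
        Adm D ((k : ℝ) ^ W) n F ∧ 2 ^ k ≤ 2 * cat b F n ∧ cat b F n ≤ 2 ^ k ∧ ¬ Q (cat b F n : ℕ)) →
      (S.card : ℝ) ≤ x / (k : ℝ) ^ U := by
  obtain ⟨V₁, G, k₁, hkeys⟩ := keysC D W
  obtain ⟨c₁, hc₁⟩ : ∃ c₁, c₁ = 2 * (D + 1) + 2 := ⟨_, rfl⟩
  obtain ⟨V, hV⟩ : ∃ V, V = (V₁ + 1) * (D + 1) + 2 := ⟨_, rfl⟩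
  obtain ⟨U', hU'⟩ : ∃ U', U' = U + G + 1 := ⟨_, rfl⟩
  obtain ⟨big, hbig⟩ : ∃ big, big = (1 + 2 * W + (W + 1 + 1) * D) * D + 2 := ⟨_, rfl⟩
  obtain ⟨k₂, hk₂⟩ := ev_exp big 2 (by norm_num)
  obtain ⟨aD, haD⟩ : ∃ aD : ℕ, aD = 4 * D * (D + 1) := ⟨_, rfl⟩
  obtain ⟨bD, hbD⟩ : ∃ bD : ℕ, bD = 2 ^ (c₁ + 1) := ⟨_, rfl⟩
  refine ⟨V, c₁, U', k₁ + k₂ + aD + bD + 20, fun k hk Q hmain x S hSx hS => ?_⟩
  have hk1 : 1 ≤ k := by omega
  have hkr : (1 : ℝ) ≤ k := by exact_mod_cast hk1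
  have hk20 : (20 : ℝ) ≤ k := by exact_mod_cast (by omega : 20 ≤ k)
  have hk0 : (0 : ℝ) < k := by linarith
  have h2k := hk₂ k (by omega)
  have hkD : (4 * (D * (D + 1)) : ℝ) ≤ k := by
    have : 4 * D * (D + 1) ≤ k := by rw [← haD]; omega
    have h2 : ((4 * D * (D + 1) : ℕ) : ℝ) ≤ k := by exact_mod_cast this
    push_cast at h2
    linarith
  have hkc : (2 : ℝ) ^ (c₁ + 1) ≤ k := by
    have : 2 ^ (c₁ + 1) ≤ k := by rw [← hbD]; omega
    exact_mod_cast this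
  have hD0 : (0 : ℝ) ≤ D := Nat.cast_nonneg D
  have hDk : (D : ℝ) + 1 ≤ k := by
    rcases Nat.eq_zero_or_pos D with h0 | h0
    · rw [h0]; push_cast; linarith
    · have : (1 : ℝ) ≤ D := by exact_mod_cast h0
      nlinarith
  have hkW : 1 ≤ (k : ℝ) ^ W := one_le_pow₀ hkr
  by_cases hne : S.Nonempty
  swap
  · rw [not_nonempty_iff_eq_empty] at hne
    rw [hne, card_empty, Nat.cast_zero]
    positivity
  obtain ⟨n₀, hn₀⟩ := hne
  obtain ⟨hn₀x, b₀, F₀, g1, g2, g3, g4, g5, -⟩ := hS n₀ hn₀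
  have hn₀I := mem_Icc.1 (hSx hn₀)
  have hx1 : 1 ≤ x := hn₀I.1.trans hn₀I.2
  have hxr1 : (1 : ℝ) ≤ x := by exact_mod_cast hx1
  have hx0 : (0 : ℝ) < x := by linarith
  have hxbig : k ^ (W + 1 + 1) ≤ x := by
    by_contra hcon
    push Not at hcon
    have h3 := cat_le D ((k : ℝ) ^ W) hkW n₀ x b₀ hn₀I.1 hn₀I.2 g1 g2 F₀ g3
    have hxr : (x : ℝ) ≤ (k : ℝ) ^ (W + 1 + 1) := by exact_mod_cast hcon.le
    have h4 : ((D + 1) * ((k : ℝ) ^ W * (k : ℝ) ^ W) * (x : ℝ) ^ D) ^ D ≤ (k : ℝ) ^ ((1 + 2 * W + (W + 1 + 1) * D) * D) := by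
      rw [pow_mul]
      apply pow_le_pow_left₀ (by positivity)
      calc (D + 1) * ((k : ℝ) ^ W * (k : ℝ) ^ W) * (x : ℝ) ^ D
          ≤ k * ((k : ℝ) ^ W * (k : ℝ) ^ W) * ((k : ℝ) ^ (W + 1 + 1)) ^ D := by
            apply mul_le_mul _ (pow_le_pow_left₀ (Nat.cast_nonneg _) hxr _) (by positivity) (by positivity)
            exact mul_le_mul_of_nonneg_right hDk (by positivity)
        _ = (k : ℝ) ^ (1 + 2 * W + (W + 1 + 1) * D) := by
            rw [← pow_mul, ← pow_add, ← pow_succ', ← pow_add]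
            congr 1
            ring
    have g4' : (2 : ℝ) ^ k ≤ 2 * (cat b₀ F₀ n₀ : ℕ) := by exact_mod_cast g4
    have h5 : (2 : ℝ) ^ k ≤ 2 * (k : ℝ) ^ ((1 + 2 * W + (W + 1 + 1) * D) * D) := by linarith [h3.trans h4]
    have h6 : (k : ℝ) ^ big = (k : ℝ) ^ ((1 + 2 * W + (W + 1 + 1) * D) * D) * (k * k) := by
      rw [hbig, pow_add, sq]
    rw [h6] at h2k
    have h7 : (0 : ℝ) < (k : ℝ) ^ ((1 + 2 * W + (W + 1 + 1) * D) * D) := by positivity
    have h8 : (k : ℝ) ^ ((1 + 2 * W + (W + 1 + 1) * D) * D) * 3 ≤ (k : ℝ) ^ ((1 + 2 * W + (W + 1 + 1) * D) * D) * (k * k) :=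
      mul_le_mul_of_nonneg_left (by nlinarith) h7.le
    linarith
  have hn₀big : 2 * ((D : ℝ) * (k : ℝ) ^ W) ≤ n₀ := by
    have h4 : ((k ^ (W + 1 + 1) : ℕ) : ℝ) ≤ 2 * n₀ := by exact_mod_cast hxbig.trans hn₀x
    push_cast at h4
    have e : (k : ℝ) ^ (W + 1 + 1) = (k : ℝ) ^ W * (k * k) := by ring
    rw [e] at h4
    have h5 : 4 * (D : ℝ) ≤ k * k := by nlinarith
    have h6 : (k : ℝ) ^ W * (4 * D) ≤ (k : ℝ) ^ W * (k * k) := mul_le_mul_of_nonneg_left h5 (by positivity)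
    linarith
  have hxlog : Real.log x ≤ k := by
    have h4 := n_le_cat D ((k : ℝ) ^ W) hkW n₀ b₀ hn₀big hn₀I.1 F₀ g3
    have h5 : ((cat b₀ F₀ n₀ : ℕ) : ℝ) ≤ 2 ^ k := by exact_mod_cast g5
    have hn₀xr : (x : ℝ) ≤ 2 * n₀ := by exact_mod_cast hn₀x
    have h6 : (x : ℝ) ≤ 4 * 2 ^ k := by linarith
    have h7 : (4 : ℝ) ≤ (13 / 10) ^ k := by
      have h8 : (4 : ℝ) ≤ (13 / 10) ^ 20 := by norm_num
      exact h8.trans (pow_le_pow_right₀ (by norm_num) (by omega))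
    rw [Real.log_le_iff_le_exp hx0]
    calc (x : ℝ) ≤ 4 * 2 ^ k := h6
      _ ≤ (13 / 10) ^ k * 2 ^ k := mul_le_mul_of_nonneg_right h7 (by positivity)
      _ = (26 / 10) ^ k := by rw [← mul_pow]; norm_num
      _ ≤ Real.exp 1 ^ k := pow_le_pow_left₀ (by norm_num) (by linarith [Real.exp_one_gt_d9]) k
      _ = Real.exp k := by rw [← Real.exp_nat_mul, mul_one]
  -- the keys
  obtain ⟨K, hK1, hK2⟩ := hkeys k (by omega) x hxbig hxlog
  obtain ⟨Z, hZ⟩ : ∃ Z : Code D → Finset ℕ, Z = fun κ => S.filter (fun n =>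
    (Blk D x ((k : ℝ) ^ V₁) κ.2.1 (kM D κ) (kF D κ) ∧ kY D x κ ≤ 2 ^ (D + 1) * 2 ^ k ∧
      (∀ m ≤ x + 1, |((kE D κ m : ℤ) : ℝ)| ≤ 3 ^ (D + 1) * 2 ^ k) ∧
      (2 : ℝ) ^ k ≤ 2 * (kE D κ n : ℤ)) ∧ ¬ Q (kE D κ n)) := ⟨_, rfl⟩
  have hsub : S ⊆ K.biUnion Z := by
    intro n hn
    obtain ⟨hnx, b, F, q1, q2, q3, q4, q5, q6⟩ := hS n hn
    have hnI := mem_Icc.1 (hSx hn)
    obtain ⟨κ, κ1, κ2, κ3, -, κ5, κ6⟩ := hK2 n hnI.1 hnI.2 hnx b F q1 q2 q3
    have q5r : ((cat b F n : ℕ) : ℝ) ≤ 2 ^ k := by exact_mod_cast q5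
    rw [mem_biUnion]
    refine ⟨κ, κ1, ?_⟩
    rw [hZ]
    simp only
    rw [mem_filter]
    refine ⟨hn, ⟨κ2, ?_, ?_, ?_⟩, ?_⟩
    · exact κ5.trans (mul_le_mul_of_nonneg_left q5r (by positivity))
    · intro m hm
      exact (κ6 m (by omega)).trans (mul_le_mul_of_nonneg_left q5r (by positivity))
    · rw [← κ3, Int.cast_natCast]
      exact_mod_cast q4
    · rw [← κ3]
      exact q6
  have hone : ∀ κ ∈ K, ((Z κ).card : ℝ) ≤ 2 * x * (1 / (k : ℝ) ^ U') := by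
    intro κ _
    by_cases hne : (Z κ).Nonempty
    swap
    · rw [not_nonempty_iff_eq_empty] at hne
      rw [hne, card_empty, Nat.cast_zero]
      positivity
    obtain ⟨n₁, hn₁⟩ := hne
    rw [hZ] at hn₁
    simp only at hn₁
    rw [mem_filter] at hn₁
    obtain ⟨hn₁S, ⟨hB, hY1, hmax, hlow⟩, -⟩ := hn₁
    have hn₁I := mem_Icc.1 (hSx hn₁S)
    obtain ⟨k', hk'⟩ : ∃ k', k' = k + c₁ := ⟨_, rfl⟩
    have hkk' : k ≤ k' := by omega
    have hkk'r : (k : ℝ) ≤ k' := by exact_mod_cast hkk'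
    have hk'1 : k' = (k' - 1) + 1 := by omega
    obtain ⟨c₀, hc₀⟩ : ∃ c₀ : ℤ, c₀ = 2 ^ (k' - 1) := ⟨_, rfl⟩
    have h2c : (2 : ℤ) ^ k' = 2 * c₀ := by
      rw [hc₀]
      conv_lhs => rw [hk'1]
      rw [pow_succ]
      ring
    have hpk' : (2 : ℝ) ^ k' = 2 ^ k * (4 ^ (D + 1) * 4) := by
      rw [hk', hc₁, pow_add, pow_add, pow_mul]
      norm_num
    have h34 : (3 : ℝ) ^ (D + 1) ≤ 4 ^ (D + 1) := pow_le_pow_left₀ (by norm_num) (by norm_num) _
    have h2kp : (0 : ℝ) < 2 ^ k := by positivity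
    have habs : ∀ n ≤ x + 1, |((kE D κ n : ℤ) : ℝ)| ≤ (2 : ℝ) ^ k' / 4 := by
      intro n hn
      refine (hmax n hn).trans ?_
      rw [hpk']
      nlinarith
    have hrange : ∀ n < x + 1, 0 ≤ kE D κ n + c₀ ∧ kE D κ n + c₀ < ((2 ^ k' : ℕ) : ℤ) := by
      intro n hn
      have h3 := abs_le.1 (habs n hn.le)
      have h4 : ((2 : ℝ)) ^ k' = 2 * (c₀ : ℝ) := by exact_mod_cast congrArg (fun z : ℤ => (z : ℝ)) h2c
      have hpos : (0 : ℝ) < (2 : ℝ) ^ k' := by positivity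
      have h5 : (-(c₀ : ℝ)) ≤ kE D κ n := by linarith [h3.1]
      have h6 : ((kE D κ n : ℤ) : ℝ) < c₀ := by linarith [h3.2]
      have h7 : -c₀ ≤ kE D κ n := by exact_mod_cast h5
      have h8 : kE D κ n < c₀ := by exact_mod_cast h6
      push_cast
      rw [h2c]
      constructor
      · linarith
      · linarith
    have hT1 : 1 ≤ (k : ℝ) ^ V₁ := one_le_pow₀ hkr
    have hBs := hB.succ hx1 (by positivity)
    have hr := hB.rpos
    have hYs : kY D (x + 1) κ ≤ 2 ^ D * kY D x κ := by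
      calc kY D (x + 1) κ = (kM D κ (κ.2.1 - 1) : ℝ) * (((x + 1 : ℕ)) : ℝ) ^ (kF D κ (κ.2.1 - 1)).natDegree := rfl
        _ ≤ (kM D κ (κ.2.1 - 1) : ℝ) * (2 ^ D * (x : ℝ) ^ (kF D κ (κ.2.1 - 1)).natDegree) :=
            mul_le_mul_of_nonneg_left (succ_pow x _ D hx1 (hB.le_D _ (by omega))) (Nat.cast_nonneg _)
        _ = 2 ^ D * kY D x κ := by unfold kY; ring
    have hYm : kY D x κ ≤ kY D (x + 1) κ := by
      unfold kY
      apply mul_le_mul_of_nonneg_left _ (Nat.cast_nonneg _)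
      apply pow_le_pow_left₀ hx0.le
      push_cast
      linarith
    have hcl : CCl D V k' (pm (x + 1) (fun n => kE D κ n + c₀)) := by
      refine ⟨x + 1, κ.2.1, kM D κ, kF D κ, c₀, by omega, ?_, hrange, ?_, ?_, rfl⟩
      · apply hBs.mono
        have h2D : (2 : ℝ) ^ D ≤ k := by
          refine le_trans (pow_le_pow_right₀ (by norm_num) ?_) hkc
          omega
        calc (2 : ℝ) ^ D * (k : ℝ) ^ V₁ ≤ k * (k : ℝ) ^ V₁ := mul_le_mul_of_nonneg_right h2D (by positivity)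
          _ = (k : ℝ) ^ (V₁ + 1) := by rw [pow_succ]; ring
          _ ≤ (k : ℝ) ^ V := by
              apply pow_le_pow_right₀ hkr
              rw [hV]
              nlinarith
          _ ≤ (k' : ℝ) ^ V := pow_le_pow_left₀ hk0.le hkk'r V
      · have e : (kM D κ (κ.2.1 - 1) : ℝ) * (((x + 1 : ℕ)) : ℝ) ^ (kF D κ (κ.2.1 - 1)).natDegree = kY D (x + 1) κ := rfl
        rw [e]
        calc kY D (x + 1) κ ≤ 2 ^ D * kY D x κ := hYs
          _ ≤ 2 ^ D * (2 ^ (D + 1) * 2 ^ k) := mul_le_mul_of_nonneg_left hY1 (by positivity)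
          _ = 2 ^ (D + (D + 1) + k) := by rw [pow_add, pow_add]; ring
          _ ≤ 2 ^ k' := by
              apply pow_le_pow_right₀ (by norm_num)
              omega
      · have e : (kM D κ (κ.2.1 - 1) : ℝ) * (((x + 1 : ℕ)) : ℝ) ^ (kF D κ (κ.2.1 - 1)).natDegree = kY D (x + 1) κ := rfl
        rw [e]
        refine le_trans ?_ (mul_le_mul_of_nonneg_left hYm (by positivity))
        have g6 := blk_abs D x hx1 ((k : ℝ) ^ V₁) hT1 _ _ _ hB n₁ hn₁I.2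
        have e2 : (kM D κ (κ.2.1 - 1) : ℝ) * (x : ℝ) ^ (kF D κ (κ.2.1 - 1)).natDegree = kY D x κ := rfl
        rw [e2] at g6
        have hY0 : 0 ≤ kY D x κ := by unfold kY; positivity
        have g7 := (le_abs_self _).trans g6
        have g8 : (2 : ℝ) ^ k ≤ 2 * (D * ((D + 1) * (k : ℝ) ^ V₁) * (((k : ℝ) ^ V₁) ^ D * kY D x κ)) := by
          refine hlow.trans (mul_le_mul_of_nonneg_left ?_ (by norm_num))
          exact g7
        have e3 : 2 * (D * ((D + 1) * (k : ℝ) ^ V₁) * (((k : ℝ) ^ V₁) ^ D * kY D x κ)) =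
            (2 * (D * (D + 1))) * (k : ℝ) ^ (V₁ * (D + 1)) * kY D x κ := by
          rw [← pow_mul, mul_add V₁ D 1, mul_one, pow_add]
          ring
        rw [e3] at g8
        calc (2 : ℝ) ^ k' = 2 ^ c₁ * 2 ^ k := by rw [hk', pow_add]; ring
          _ ≤ k * ((2 * (D * (D + 1))) * (k : ℝ) ^ (V₁ * (D + 1)) * kY D x κ) := by
              apply mul_le_mul _ g8 (by positivity) hk0.le
              refine le_trans (pow_le_pow_right₀ (by norm_num) ?_) hkc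
              omega
          _ ≤ k * (k * (k : ℝ) ^ (V₁ * (D + 1)) * kY D x κ) := by
              apply mul_le_mul_of_nonneg_left _ hk0.le
              apply mul_le_mul_of_nonneg_right _ hY0
              apply mul_le_mul_of_nonneg_right _ (by positivity)
              nlinarith
          _ = (k : ℝ) ^ (V₁ * (D + 1) + 2) * kY D x κ := by rw [pow_add]; ring
          _ ≤ (k : ℝ) ^ V * kY D x κ := by
              apply mul_le_mul_of_nonneg_right _ hY0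
              apply pow_le_pow_right₀ hkr
              rw [hV]
              nlinarith
          _ ≤ (k' : ℝ) ^ V * kY D x κ := mul_le_mul_of_nonneg_right (pow_le_pow_left₀ hk0.le hkk'r V) hY0
    have hm := hmain (pm (x + 1) (fun n => kE D κ n + c₀)) (by rw [← hk']; exact hcl) (-c₀) (by
      rw [← hk', h2c, abs_neg, abs_of_nonneg (by rw [hc₀]; positivity)]
      have : 0 ≤ c₀ := by rw [hc₀]; positivity
      linarith)
    rw [← hk'] at hm
    have hf := fiber_one (2 ^ k') (x + 1) (fun n => kE D κ n + c₀) (by omega) hrange Q (-c₀) (Z κ) (by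
      intro n hn
      rw [hZ] at hn
      simp only at hn
      rw [mem_filter] at hn
      have hnI := mem_Icc.1 (hSx hn.1)
      refine ⟨by omega, ?_⟩
      have e : -c₀ + (kE D κ n + c₀) = kE D κ n := by ring
      simp only [e]
      exact hn.2.2)
    have hnn : 0 ≤ 1 / (k : ℝ) ^ U' := by positivity
    calc ((Z κ).card : ℝ) ≤ ((x + 1 : ℕ) : ℝ) * (1 / (k : ℝ) ^ U') := hf.trans (mul_le_mul_of_nonneg_left hm (Nat.cast_nonneg _))
      _ ≤ (2 * x) * (1 / (k : ℝ) ^ U') := by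
          apply mul_le_mul_of_nonneg_right _ hnn
          push_cast
          linarith
  have h3 : (S.card : ℝ) ≤ ∑ κ ∈ K, ((Z κ).card : ℝ) := by
    exact_mod_cast (card_le_card hsub).trans card_biUnion_le
  calc (S.card : ℝ) ≤ ∑ κ ∈ K, ((Z κ).card : ℝ) := h3
    _ ≤ ∑ _κ ∈ K, 2 * x * (1 / (k : ℝ) ^ U') := sum_le_sum hone
    _ = K.card * (2 * x * (1 / (k : ℝ) ^ U')) := by rw [sum_const, nsmul_eq_mul]
    _ ≤ (k : ℝ) ^ G * (k * x * (1 / (k : ℝ) ^ U')) := by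
        apply mul_le_mul hK1 _ (by positivity) (by positivity)
        apply mul_le_mul_of_nonneg_right _ (by positivity)
        apply mul_le_mul_of_nonneg_right _ hx0.le
        linarith
    _ = x / (k : ℝ) ^ U := by
        have e : U' = U + G + 1 := hU'
        rw [e, pow_succ, pow_add]
        field_simp

end Pool.Agent.U837.CC
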