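import Pool.Agent.U837.CC.Vc
import Pool.Agent.N625.PT.I

set_option autoImplicit false
set_option maxHeartbeats 4000000

/-!
Prime tuples whose shifts are multiples of integers near concatenations.
-/

namespace Pool.Agent.U837.CC
open Finset Polynomial

lemma kk_le_mul (B k : ℕ) (hk : 1 ≤ k) : kk B k ≤ (B + 1) * k := by
  unfold kk
  have h1 : Nat.log 2 k + 1 ≤ k := Nat.log_lt_self 2 (by omega)
  have h2 : B * (Nat.log 2 k + 1) ≤ B * k := Nat.mul_le_mul_left _ h1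
  linarith

lemma kk_num (B J k : ℕ) (hk : B + 2 ≤ k) : (kk B k) ^ J * 2 ^ kk B k ≤ k ^ (2 * J + 2 * B) * 2 ^ k := by
  have h1 : kk B k ≤ k ^ 2 := by
    refine (kk_le_mul B k (by omega)).trans ?_
    rw [pow_two]
    exact Nat.mul_le_mul_right _ (by omega)
  have h2 : 2 ^ kk B k ≤ 2 ^ k * k ^ (2 * B) := by
    refine (kk_upper B k (by omega)).trans ?_
    apply Nat.mul_le_mul_left
    rw [pow_mul]
    apply Nat.pow_le_pow_left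
    rw [pow_two]
    exact Nat.mul_le_mul_right _ (by omega)
  calc (kk B k) ^ J * 2 ^ kk B k ≤ (k ^ 2) ^ J * (2 ^ k * k ^ (2 * B)) := Nat.mul_le_mul (Nat.pow_le_pow_left h1 J) h2
    _ = k ^ (2 * J + 2 * B) * 2 ^ k := by rw [← pow_mul, pow_add]; ring

lemma kk_num' (B J k : ℕ) : k ^ J * 2 ^ k ≤ (kk B k) ^ J * 2 ^ kk B k :=
  Nat.mul_le_mul (Nat.pow_le_pow_left (kk_le B k) J) (Nat.pow_le_pow_right (by norm_num) (kk_le B k))

/-- the concatenations at the scale `2 ^ k` -/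
def Cond (D W k n b : ℕ) (F : List ℤ[X]) : Prop :=
  2 ≤ b ∧ (b : ℝ) ≤ (k : ℝ) ^ W ∧ Adm D ((k : ℝ) ^ W) n F ∧ (2 : ℝ) ^ k ≤ (k : ℝ) ^ W * (cat b F n : ℕ) ∧ cat b F n ≤ 2 ^ k

open Classical in
/-- prime tuples -/
theorem cc_tuples (s : ℕ) (hs : 1 ≤ s) (D W U J : ℕ) (ε : ℝ) (hε : 0 < ε) (P : ℕ → (Fin s → ℕ) → Prop)
    (hP : ∀ U' N a, 3 ≤ N → Pool.Agent.W93.TD.HLs ε U' N a → P N a) : ∃ B : ℕ, ∀ J₂ : ℕ, ∃ k₀ : ℕ, ∀ k : ℕ, k₀ ≤ k →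
    ∀ N : ℕ, k ^ B * 2 ^ k ≤ N → N ≤ k ^ J₂ * 2 ^ k → ∀ x : Fin s → ℕ, ∀ S ⊆ Fintype.piFinset (fun i => Icc 1 (x i)),
      (∀ n ∈ S, ∃ (b : Fin s → ℕ) (F : Fin s → List ℤ[X]) (q h : Fin s → ℕ), (∀ i, Cond D W k (n i) (b i) (F i)) ∧
        (∀ i, |(q i : ℤ) - (cat (b i) (F i) (n i) : ℤ)| ≤ (k : ℤ) ^ W) ∧ (∀ i, 1 ≤ h i ∧ h i ≤ k ^ J) ∧
        ¬ P N (fun i => h i * q i)) →
      (S.card : ℝ) ≤ (∏ i, (x i : ℝ)) / (k : ℝ) ^ U := by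
  obtain ⟨V, B₁, U', k₁, hvec⟩ := vec_cat s D W U
  refine ⟨2 * (J + 1) + 2 * B₁, fun J₂ => ?_⟩
  obtain ⟨k₂, hmain⟩ := Pool.Agent.N625.PT.t_tuples s hs le_rfl (fun _ => 1) (fun _ => CCl D V)
    (fun _ => cc_tcls D V 1 one_ne_zero) 1 J J₂ W U' ε hε
  refine ⟨k₁ + k₂ + B₁ + 3, fun k hk N hN1 hN2 x S hSx hS => ?_⟩
  have hkk := kk_le B₁ k
  refine hvec k (by omega) (fun y => ∀ h : Fin s → ℕ, (∀ i, 1 ≤ h i ∧ h i ≤ (kk B₁ k) ^ J) →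
      ∀ q : Fin s → ℕ, (∀ i, |(q i : ℤ) - y i| ≤ ((kk B₁ k : ℕ) : ℤ) ^ W) →
        Pool.Agent.W93.TD.HLs ε U' N (fun i => h i * q i)) ?_ x S hSx ?_
  · intro p hp c hc
    have h1 := hmain (kk B₁ k) (by omega) p hp c (fun i => by
      have := hc i
      push_cast
      linarith) N ((kk_num B₁ (J + 1) k (by omega)).trans hN1) (hN2.trans (kk_num' B₁ J₂ k))
    simp only [one_mul] at h1
    refine h1.trans ?_
    apply one_div_le_one_div_of_le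
    · have : (0 : ℝ) < k := by exact_mod_cast (by omega : 0 < k)
      positivity
    · apply pow_le_pow_left₀ (Nat.cast_nonneg k)
      exact_mod_cast hkk
  · intro n hn
    obtain ⟨b, F, q, h, h1, h2, h3, h4⟩ := hS n hn
    refine ⟨b, F, h1, fun hc => h4 ?_⟩
    have hN3 : 3 ≤ N := by
      refine le_trans ?_ hN1
      have g1 : 1 * 2 ^ k ≤ k ^ (2 * (J + 1) + 2 * B₁) * 2 ^ k := Nat.mul_le_mul_right _ (Nat.one_le_pow _ _ (by omega))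
      have g2 : k < 2 ^ k := Nat.lt_two_pow_self
      omega
    refine hP U' N _ hN3 (hc h (fun i => ⟨(h3 i).1, (h3 i).2.trans (Nat.pow_le_pow_left hkk J)⟩) q (fun i => (h2 i).trans ?_))
    apply pow_le_pow_left₀ (by positivity)
    exact_mod_cast hkk

end Pool.Agent.U837.CC
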